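import Pool.Agent.Run7.h618.CL.Rec

set_option autoImplicit false

/-! The critical mass of the pieces between two cut levels. -/

namespace Run7.h618.CL

open Finset
open H978R2.Hex (V Adj mu0)
open Pool.Agent.W818.TD (EBr hl la tr Wt M le_M chain_tr nodup_tr mem_tr tr_length la_tr la_append la_cons)

theorem lv_sub (v c : V) : lv (v + -c) = lv v - lv c := by
  unfold lv
  simp only [Prod.fst_add, Prod.snd_add, Prod.fst_neg, Prod.snd_neg]
  ring

theorem Bk.ne {w : V} {s : ℤ} {a : List V} (h : Bk w s a) : a ≠ [] := by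
  rintro rfl
  have := h.1
  simp at this

theorem Bk.la {w : V} {s : ℤ} {a : List V} (h : Bk w s a) : lv (la a) = s := by
  obtain ⟨x, hx, hl⟩ := h.2.2.2.2
  have e : Pool.Agent.W818.TD.la a = x := by
    unfold Pool.Agent.W818.TD.la
    rw [List.getLastD_eq_getLast?, hx]
    rfl
  rw [e, hl]

/-- one more step at the beginning -/
theorem Bk.down {w : V} {s : ℤ} {a : List V} (h : Bk w s a) :
    Bk (w.1 - 1, w.2) s ((w.1 - 1, w.2) :: a) ∧
      ∀ v ∈ ((w.1 - 1, w.2) :: a : List V).tail, lv (w.1 - 1, w.2) < lv v := by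
  obtain ⟨h1, h2, h3, h4, x, h5, h6⟩ := h
  have hl : lv ((w.1 - 1, w.2) : V) = lv w - 1 := by
    unfold lv
    simp only
    ring
  obtain ⟨t, rfl⟩ : ∃ t, a = w :: t := by
    cases a with
    | nil => simp at h1
    | cons y t =>
      simp only [List.head?_cons, Option.some.injEq] at h1
      exact ⟨t, by rw [h1]⟩
  have hw := h4 w List.mem_cons_self
  refine ⟨⟨rfl, ?_, ?_, ?_, x, ?_, h6⟩, ?_⟩
  · rw [List.isChain_cons_cons]
    refine ⟨?_, h2⟩
    rw [H978R2.Hex.adj_iff]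
    left
    constructor <;> simp
  · rw [List.nodup_cons]
    refine ⟨fun hm => ?_, h3⟩
    have := (h4 _ hm).1
    omega
  · intro v hv
    rcases List.mem_cons.1 hv with rfl | hv
    · omega
    · have := h4 v hv
      omega
  · rw [List.getLast?_cons_cons]
    exact h5
  · intro v hv
    rw [List.tail_cons] at hv
    have := h4 v hv
    omega

/-- one more step at the end -/
theorem Bk.up {w : V} {s : ℤ} {a : List V} (h : Bk w s a)
    (hst : ∀ v ∈ a.tail, lv w < lv v) (hws : lv w ≤ s) :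
    Bk w (s + 1) (a ++ [((Pool.Agent.W818.TD.la a).1 + 1, (Pool.Agent.W818.TD.la a).2)]) ∧
      ∀ v ∈ (a ++ [((Pool.Agent.W818.TD.la a).1 + 1, (Pool.Agent.W818.TD.la a).2)]).tail,
        lv w < lv v := by
  have hla := h.la
  have hne := h.ne
  obtain ⟨h1, h2, h3, h4, x, h5, h6⟩ := h
  have e : Pool.Agent.W818.TD.la a = x := by
    unfold Pool.Agent.W818.TD.la
    rw [List.getLastD_eq_getLast?, h5]
    rfl
  rw [e]
  have hl : lv ((x.1 + 1, x.2) : V) = s + 1 := by
    unfold lv at h6 ⊢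
    simp only
    omega
  refine ⟨⟨?_, ?_, ?_, ?_, (x.1 + 1, x.2), ?_, hl⟩, ?_⟩
  · rw [List.head?_append, h1]
    rfl
  · rw [List.isChain_append]
    refine ⟨h2, List.isChain_singleton _, ?_⟩
    intro p hp q hq
    rw [h5, Option.mem_def, Option.some.injEq] at hp
    simp only [List.head?_cons, Option.mem_def, Option.some.injEq] at hq
    rw [← hp, ← hq, H978R2.Hex.adj_iff]
    left
    constructor <;> simp
  · rw [List.nodup_append]
    refine ⟨h3, List.nodup_singleton _, ?_⟩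
    intro p hp q hq hpq
    rw [List.mem_singleton] at hq
    have := (h4 p hp).2
    rw [hpq, hq, hl] at this
    omega
  · intro v hv
    rcases List.mem_append.1 hv with hv | hv
    · have := h4 v hv
      omega
    · rw [List.mem_singleton.1 hv, hl]
      omega
  · simp
  · intro v hv
    cases a with
    | nil => exact absurd rfl hne
    | cons y t =>
      rw [List.cons_append, List.tail_cons] at hv
      rcases List.mem_append.1 hv with hv | hv
      · exact hst v hv
      · rw [List.mem_singleton.1 hv, hl]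
        omega

theorem EBr_of {c : V} {s : ℤ} {b : List V} (hb : Bk c s b) (hst : ∀ v ∈ b.tail, lv c < lv v)
    (hc : lv c % 2 = 0) (hs : s % 2 = 0) : EBr (tr (-c) b) ∧ hl (tr (-c) b) = s - lv c := by
  have hla := hb.la
  have hne := hb.ne
  obtain ⟨h1, h2, h3, h4, x, h5, h6⟩ := hb
  have hhl : hl (tr (-c) b) = s - lv c := by
    have : hl (tr (-c) b) = lv (la (tr (-c) b)) := rfl
    rw [this, la_tr hne, lv_sub, hla]
  obtain ⟨t, rfl⟩ : ∃ t, b = c :: t := by
    cases b with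
    | nil => simp at h1
    | cons y t =>
      simp only [List.head?_cons, Option.some.injEq] at h1
      exact ⟨t, by rw [h1]⟩
  refine ⟨⟨?_, ?_, nodup_tr h3, ?_, ?_, ?_⟩, hhl⟩
  · unfold tr
    rw [List.map_cons, List.head?_cons, add_neg_cancel]
    rfl
  · apply chain_tr _ h2
    unfold lv at hc
    simp only [Prod.fst_neg, Prod.snd_neg]
    omega
  · intro w hw
    unfold tr at hw
    rw [List.map_cons, List.tail_cons, List.mem_map] at hw
    obtain ⟨v, hv, rfl⟩ := hw
    have h7 := hst v (by rwa [List.tail_cons])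
    have h8 := lv_sub v c
    unfold lv at h7 h8
    omega
  · intro w hw
    rw [hhl]
    rw [mem_tr] at hw
    have h7 := (h4 _ hw).2
    unfold lv at h7 ⊢
    simp only [Prod.fst_sub, Prod.snd_sub, Prod.fst_neg, Prod.snd_neg] at h7
    omega
  · rw [hhl]
    omega

/-- the prolongation of the piece to a bridge with even ends -/
noncomputable def ext (w : V) (s : ℤ) (a : List V) : List V :=
  (if lv w % 2 = 0 then [((w.1 - 1 - 1, w.2) : V), (w.1 - 1, w.2)] else [(w.1 - 1, w.2)]) ++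
    (a ++ if s % 2 = 0 then [] else [((la a).1 + 1, (la a).2)])

theorem ext_spec {w : V} {s : ℤ} {a : List V} (h : Bk w s a) (hws : lv w ≤ s) :
    ∃ (c : V) (s' : ℤ), Bk c s' (ext w s a) ∧ (∀ v ∈ (ext w s a).tail, lv c < lv v) ∧
      lv c % 2 = 0 ∧ s' % 2 = 0 ∧ c = (if lv w % 2 = 0 then ((w.1 - 1 - 1, w.2) : V) else (w.1 - 1, w.2)) ∧
      s - lv w + 1 ≤ s' - lv c ∧ s' - lv c ≤ s - lv w + 3 ∧
      s' = (if s % 2 = 0 then s else s + 1) ∧ a.length + 1 ≤ (ext w s a).length ∧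
        (ext w s a).length ≤ a.length + 3 := by
  have hl1 : lv ((w.1 - 1, w.2) : V) = lv w - 1 := by
    unfold lv
    simp only
    ring
  have hl2 : lv ((w.1 - 1 - 1, w.2) : V) = lv w - 2 := by
    unfold lv
    simp only
    ring
  obtain ⟨d1, d2⟩ := h.down
  obtain ⟨dd1, dd2⟩ := d1.down
  simp only at dd1 dd2
  unfold ext
  by_cases h1 : lv w % 2 = 0
  · by_cases h2 : s % 2 = 0
    · simp only [if_pos h1, if_pos h2, List.append_nil]
      refine ⟨_, s, dd1, dd2, by omega, h2, rfl, by omega, by omega, rfl, ?_, ?_⟩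
      · simp
      · simp
    · simp only [if_pos h1, if_neg h2]
      obtain ⟨u1, u2⟩ := dd1.up dd2 (by omega)
      have e : la (((w.1 - 1 - 1, w.2) : V) :: (w.1 - 1, w.2) :: a) = la a := by
        rw [la_cons (List.cons_ne_nil _ _), la_cons h.ne]
      rw [e] at u1 u2
      refine ⟨_, s + 1, u1, u2, by omega, by omega, rfl, by omega, by omega, rfl, ?_, ?_⟩
      · simp
      · simp
  · by_cases h2 : s % 2 = 0
    · simp only [if_neg h1, if_pos h2, List.append_nil]
      refine ⟨_, s, d1, d2, by omega, h2, rfl, by omega, by omega, rfl, ?_, ?_⟩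
      · simp
      · simp
    · simp only [if_neg h1, if_neg h2]
      obtain ⟨u1, u2⟩ := d1.up d2 (by omega)
      have e : la (((w.1 - 1, w.2) : V) :: a) = la a := la_cons h.ne
      rw [e] at u1 u2
      refine ⟨_, s + 1, u1, u2, by omega, by omega, rfl, by omega, by omega, rfl, ?_, ?_⟩
      · simp
      · simp

theorem ext_inj {w : V} {s : ℤ} {a a' : List V} (h : ext w s a = ext w s a') : a = a' := by
  unfold ext at h
  have h1 := List.append_cancel_left h
  by_cases h2 : s % 2 = 0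
  · simpa [h2] using h1
  · simp only [if_neg h2] at h1
    have := List.append_inj' h1 rfl
    exact this.1

theorem mu0_sq : mu0 ^ 2 ≤ 4 := by
  have h : mu0 = Real.sqrt (2 + Real.sqrt 2) := rfl
  have h2 : Real.sqrt 2 ≤ 2 := by
    rw [Real.sqrt_le_left (by norm_num)]
    norm_num
  rw [h, Real.sq_sqrt (by positivity)]
  linarith

theorem one_le_mu0 : 1 ≤ mu0 := by
  have h : mu0 = Real.sqrt (2 + Real.sqrt 2) := rfl
  rw [h, Real.one_le_sqrt]
  have := Real.sqrt_nonneg 2
  linarith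

/-- **mass of the pieces** -/
theorem mass (w : V) (s : ℤ) (G : Finset (List V)) (hws : lv w ≤ s) (hG : ∀ a ∈ G, Bk w s a) :
    ∑ a ∈ G, mu0⁻¹ ^ a.length ≤ 52 * (((s - lv w).toNat : ℝ) + 1) ^ (-(23 / 200) : ℝ) := by
  classical
  have hmu := one_le_mu0
  have hmu0 : 0 < mu0 := by linarith
  have hx : (0 : ℝ) ≤ mu0⁻¹ := by positivity
  obtain ⟨c, hc⟩ : ∃ c : V, c = (if lv w % 2 = 0 then ((w.1 - 1 - 1, w.2) : V) else (w.1 - 1, w.2)) :=
    ⟨_, rfl⟩
  obtain ⟨s', hs'⟩ : ∃ s' : ℤ, s' = (if s % 2 = 0 then s else s + 1) := ⟨_, rfl⟩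
  obtain ⟨f, hf⟩ : ∃ f : List V → List V, f = fun a => tr (-c) (ext w s a) := ⟨_, rfl⟩
  rcases G.eq_empty_or_nonempty with h0 | ⟨a0, ha0⟩
  · rw [h0, Finset.sum_empty]
    positivity
  have hkey : ∀ a ∈ G, EBr (f a) ∧ hl (f a) = s' - lv c ∧ a.length + 1 ≤ (f a).length ∧
      (f a).length ≤ a.length + 3 ∧ s - lv w + 1 ≤ s' - lv c := by
    intro a ha
    obtain ⟨c1, s1, b1, b2, b3, b4, b5, b6, b7, b8, b9, b10⟩ := ext_spec (hG a ha) hws
    rw [← hc] at b5
    rw [← hs'] at b8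
    subst b5
    subst b8
    obtain ⟨e1, e2⟩ := EBr_of b1 b2 b3 b4
    rw [hf]
    refine ⟨e1, e2, ?_, ?_, b6⟩
    · rw [tr_length]
      exact b9
    · rw [tr_length]
      exact b10
  have hinj : ∀ a ∈ G, ∀ a' ∈ G, f a = f a' → a = a' := by
    intro a _ a' _ h
    rw [hf] at h
    have h1 : ext w s a = ext w s a' :=
      List.map_injective_iff.2 (fun (p q : V) (hpq : p + -c = q + -c) => add_right_cancel hpq) h
    exact ext_inj h1
  obtain ⟨T, hT⟩ : ∃ T : ℤ, s' - lv c = 2 * T := by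
    obtain ⟨h1, h2, -⟩ := hkey a0 ha0
    have := h1.ev
    rw [h2] at this
    exact ⟨(s' - lv c) / 2, by omega⟩
  have hT2 : s - lv w + 1 ≤ 2 * T := by
    have := (hkey a0 ha0).2.2.2.2
    omega
  have hT1 : 1 ≤ T := by omega
  have h1 := le_M (S := {β | EBr β ∧ hl β = 2 * T}) (G.image f) (fun β hβ => by
    obtain ⟨a, ha, rfl⟩ := Finset.mem_image.1 hβ
    obtain ⟨h1, h2, -⟩ := hkey a ha
    exact ⟨h1, by rw [h2, hT]⟩)
  have h2 := h1.trans (Pool.Agent.TH232.WX.M_bridge T hT1)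
  unfold Wt at h2
  rw [← ENNReal.ofReal_sum_of_nonneg (fun β _ => pow_nonneg hx _)] at h2
  have hTr : (1 : ℝ) ≤ T := by exact_mod_cast hT1
  rw [ENNReal.ofReal_le_ofReal_iff (by positivity), Finset.sum_image hinj] at h2
  have h3 : ∀ a ∈ G, mu0⁻¹ ^ a.length ≤ 4 * mu0⁻¹ ^ ((f a).length - 1) := by
    intro a ha
    obtain ⟨-, -, h5, h6, -⟩ := hkey a ha
    obtain ⟨j, hj⟩ : ∃ j, (f a).length - 1 = a.length + j := ⟨(f a).length - 1 - a.length, by omega⟩
    have hj2 : j ≤ 2 := by omega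
    rw [hj, pow_add]
    have h7 : 1 ≤ 4 * mu0⁻¹ ^ j := by
      have h8 : mu0 ^ j ≤ mu0 ^ 2 := pow_le_pow_right₀ hmu hj2
      rw [inv_pow, ← div_eq_mul_inv, le_div_iff₀ (by positivity)]
      have := mu0_sq
      linarith
    have h8 : 0 ≤ mu0⁻¹ ^ a.length := by positivity
    nlinarith
  refine (Finset.sum_le_sum h3).trans ?_
  rw [← Finset.mul_sum]
  have h4 : (T : ℝ) ^ (-(23 / 200) : ℝ) ≤ 2 * (((s - lv w).toNat : ℝ) + 1) ^ (-(23 / 200) : ℝ) := by
    have h5 : (((s - lv w).toNat : ℝ) + 1) / 2 ≤ T := by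
      have h6 : (((s - lv w).toNat : ℤ) : ℝ) + 1 ≤ 2 * T := by
        have : ((s - lv w).toNat : ℤ) + 1 ≤ 2 * T := by omega
        exact_mod_cast this
      have h7 : (((s - lv w).toNat : ℤ) : ℝ) = ((s - lv w).toNat : ℝ) := by norm_cast
      rw [h7] at h6
      linarith
    have h8 : (0 : ℝ) < ((s - lv w).toNat : ℝ) + 1 := by positivity
    calc (T : ℝ) ^ (-(23 / 200) : ℝ) ≤ ((((s - lv w).toNat : ℝ) + 1) / 2) ^ (-(23 / 200) : ℝ) :=
          Real.rpow_le_rpow_of_nonpos (by positivity) h5 (by norm_num)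
      _ = (((s - lv w).toNat : ℝ) + 1) ^ (-(23 / 200) : ℝ) * (2 : ℝ) ^ ((23 / 200) : ℝ) := by
          rw [Real.div_rpow h8.le (by norm_num), Real.rpow_neg (by norm_num : (0 : ℝ) ≤ 2),
            div_inv_eq_mul]
      _ ≤ (((s - lv w).toNat : ℝ) + 1) ^ (-(23 / 200) : ℝ) * (2 : ℝ) ^ (1 : ℝ) :=
          mul_le_mul_of_nonneg_left (Real.rpow_le_rpow_of_exponent_le (by norm_num) (by norm_num))
            (by positivity)
      _ = 2 * (((s - lv w).toNat : ℝ) + 1) ^ (-(23 / 200) : ℝ) := by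
          rw [Real.rpow_one]
          ring
  linarith

end Run7.h618.CL
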