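import Pool.Agent.Run7.h618.CL.Bst
import Pool.Agent.Y67.QB.CN

set_option autoImplicit false

/-! Counting the walks with many cut levels in a window. -/

namespace Run7.h618.CL

open Finset
open H978R2.Hex (V Adj mu0)
open Pool.Agent.Y981.QB (IsSW)

theorem sum_rpow (p : ℝ) (hp : 0 < p) (hp1 : p ≤ 1) (N : ℕ) :
    ∑ n ∈ range N, ((n : ℝ) + 1) ^ (p - 1) ≤ (N : ℝ) ^ p / p := by
  induction N with
  | zero => simp [Real.zero_rpow hp.ne']
  | succ N ih =>
    rw [Finset.sum_range_succ]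
    have hN : (0 : ℝ) ≤ N := Nat.cast_nonneg _
    have hN1 : (0 : ℝ) < (N : ℝ) + 1 := by linarith
    have h1 := rpow_one_add_le_one_add_mul_self (s := -1 / ((N : ℝ) + 1)) (p := p) (by
      rw [le_div_iff₀ hN1]
      linarith) hp.le hp1
    have h2 : 1 + -1 / ((N : ℝ) + 1) = N / (N + 1) := by field_simp; ring
    rw [h2, Real.div_rpow hN hN1.le, div_le_iff₀ (Real.rpow_pos_of_pos hN1 p)] at h1
    have h3 : ((N : ℝ) + 1) ^ (p - 1) = ((N : ℝ) + 1) ^ p / (N + 1) := Real.rpow_sub_one hN1.ne' p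
    have h4 : (1 + p * (-1 / ((N : ℝ) + 1))) * ((N : ℝ) + 1) ^ p =
        ((N : ℝ) + 1) ^ p - p * ((N : ℝ) + 1) ^ (p - 1) := by
      rw [h3]
      field_simp
      ring
    rw [h4] at h1
    rw [le_div_iff₀ hp] at ih ⊢
    push_cast
    linarith

/-- total critical mass of the walks with at most `m` steps -/
theorem tot {K : ℝ} (hK : 0 ≤ K) (hcn : ∀ (v : V) (n : ℕ) (F : Finset (List V)),
      (∀ l ∈ F, IsSW v n l) → (F.card : ℝ) ≤ mu0 ^ n * Real.exp (K * Real.log (n + 2) ^ 2))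
    (m : ℕ) (w : V) (F : Finset (List V)) (hF : ∀ b ∈ F, Wk w (m + 1) b) :
    ∑ b ∈ F, mu0⁻¹ ^ b.length ≤ ((m : ℝ) + 1) * Real.exp (K * Real.log (m + 2) ^ 2) := by
  classical
  have hmu := one_le_mu0
  have hmu0 : 0 < mu0 := by linarith
  have hmaps : ∀ b ∈ F, b.length - 1 ∈ range (m + 1) := by
    intro b hb
    obtain ⟨h1, -, -, h4⟩ := hF b hb
    have : b ≠ [] := by
      rintro rfl
      simp at h1
    have := List.length_pos_of_ne_nil this
    rw [Finset.mem_range]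
    omega
  rw [← Finset.sum_fiberwise_of_maps_to hmaps]
  have h1 : ∀ j ∈ range (m + 1), ∑ b ∈ F with b.length - 1 = j, mu0⁻¹ ^ b.length ≤
      Real.exp (K * Real.log (m + 2) ^ 2) := by
    intro j hj
    rw [Finset.mem_range] at hj
    have hlen : ∀ b ∈ F.filter (fun b => b.length - 1 = j), b.length = j + 1 ∧ IsSW w j b := by
      intro b hb
      rw [Finset.mem_filter] at hb
      obtain ⟨a1, a2, a3, a4⟩ := hF b hb.1
      have : b ≠ [] := by
        rintro rfl
        simp at a1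
      have := List.length_pos_of_ne_nil this
      exact ⟨by omega, by omega, a1, a2, a3⟩
    have e : ∑ b ∈ F with b.length - 1 = j, mu0⁻¹ ^ b.length =
        ((F.filter (fun b => b.length - 1 = j)).card : ℝ) * mu0⁻¹ ^ (j + 1) := by
      rw [← nsmul_eq_mul, ← Finset.sum_const]
      exact Finset.sum_congr rfl fun b hb => by rw [(hlen b hb).1]
    rw [e]
    have h2 := hcn w j (F.filter (fun b => b.length - 1 = j)) (fun b hb => (hlen b hb).2)
    have h3 : Real.log ((j : ℝ) + 2) ^ 2 ≤ Real.log ((m : ℝ) + 2) ^ 2 := by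
      have h4 : (0 : ℝ) ≤ Real.log ((j : ℝ) + 2) :=
        Real.log_nonneg (by linarith [(Nat.cast_nonneg j : (0 : ℝ) ≤ j)])
      have h5 : (j : ℝ) ≤ m := by exact_mod_cast (by omega : j ≤ m)
      have h6 : Real.log ((j : ℝ) + 2) ≤ Real.log ((m : ℝ) + 2) :=
        Real.log_le_log (by positivity) (by linarith)
      exact pow_le_pow_left₀ h4 h6 2
    have h4 : Real.exp (K * Real.log (j + 2) ^ 2) ≤ Real.exp (K * Real.log (m + 2) ^ 2) :=
      Real.exp_le_exp.2 (mul_le_mul_of_nonneg_left h3 hK)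
    calc ((F.filter (fun b => b.length - 1 = j)).card : ℝ) * mu0⁻¹ ^ (j + 1)
        ≤ (mu0 ^ j * Real.exp (K * Real.log (j + 2) ^ 2)) * mu0⁻¹ ^ (j + 1) :=
          mul_le_mul_of_nonneg_right h2 (by positivity)
      _ = (mu0 * mu0⁻¹) ^ j * (mu0⁻¹ * Real.exp (K * Real.log (j + 2) ^ 2)) := by
          rw [mul_pow, pow_succ]
          ring
      _ = mu0⁻¹ * Real.exp (K * Real.log (j + 2) ^ 2) := by
          rw [mul_inv_cancel₀ hmu0.ne', one_pow, one_mul]
      _ ≤ 1 * Real.exp (K * Real.log (m + 2) ^ 2) :=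
          mul_le_mul (inv_le_one_of_one_le₀ hmu) h4 (by positivity) (by norm_num)
      _ = _ := one_mul _
  refine (Finset.sum_le_sum h1).trans (le_of_eq ?_)
  rw [Finset.sum_const, Finset.card_range, nsmul_eq_mul]
  push_cast
  ring

/-- **walks with many upward cuts in a window** -/
theorem win_count {K : ℝ} (hK : 0 ≤ K) (hcn : ∀ (v : V) (n : ℕ) (F : Finset (List V)),
      (∀ l ∈ F, IsSW v n l) → (F.card : ℝ) ≤ mu0 ^ n * Real.exp (K * Real.log (n + 2) ^ 2))
    (m T : ℕ) (hT : 1 ≤ T) (A : ℝ) (v : V) (u : ℤ) (F : Finset (List V))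
    (hF : ∀ l ∈ F, IsSW v m l ∧ A * (T : ℝ) ^ (177 / 200 : ℝ) ≤ (CW u (u + T) l).card) :
    (F.card : ℝ) ≤ mu0 ^ (m + 1) * (9 * T * (((m : ℝ) + 1) * Real.exp (K * Real.log (m + 2) ^ 2)) ^ 2) *
      Real.exp (-(A / 960)) := by
  classical
  have hmu := one_le_mu0
  have hmu0 : 0 < mu0 := by linarith
  obtain ⟨E, hE⟩ : ∃ E, E = ((m : ℝ) + 1) * Real.exp (K * Real.log (m + 2) ^ 2) := ⟨_, rfl⟩
  rw [← hE]
  have hE1 : 1 ≤ E := by
    rw [hE]
    have h1 : (1 : ℝ) ≤ (m : ℝ) + 1 := by linarith [(Nat.cast_nonneg m : (0 : ℝ) ≤ m)]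
    have h2 : 1 ≤ Real.exp (K * Real.log (m + 2) ^ 2) := Real.one_le_exp (by positivity)
    nlinarith
  have hTr : (1 : ℝ) ≤ T := by exact_mod_cast hT
  obtain ⟨P, hP⟩ : ∃ P, P = (T : ℝ) ^ (177 / 200 : ℝ) := ⟨_, rfl⟩
  have hP1 : 1 ≤ P := by
    rw [hP]
    exact Real.one_le_rpow hTr (by norm_num)
  rw [← hP] at hF
  obtain ⟨z, hz⟩ : ∃ z, z = 1 / (480 * P) := ⟨_, rfl⟩
  have hz0 : 0 < z := by rw [hz]; positivity
  have hz1 : z ≤ 1 := by
    rw [hz, div_le_one (by positivity)]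
    linarith
  have hzP : z * P = 1 / 480 := by
    rw [hz]
    field_simp
  obtain ⟨β, hβ⟩ : ∃ β : ℕ → ℝ, β = fun h : ℕ => 52 * ((h : ℝ) + 1) ^ (-(23 / 200) : ℝ) := ⟨_, rfl⟩
  have hβ0 : ∀ h, 0 ≤ β h := by
    intro h
    rw [hβ]
    positivity
  have hsum : ∑ h ∈ range T, β h ≤ 60 * P := by
    rw [hβ]
    simp only
    rw [← Finset.mul_sum]
    have h1 := sum_rpow (177 / 200) (by norm_num) (by norm_num) T
    rw [← hP] at h1
    have e : ((177 : ℝ) / 200 - 1) = -(23 / 200) := by norm_num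
    rw [e, le_div_iff₀ (by norm_num)] at h1
    have h2 : 0 ≤ ∑ n ∈ range T, ((n : ℝ) + 1) ^ (-(23 / 200) : ℝ) :=
      Finset.sum_nonneg fun n _ => by positivity
    nlinarith
  have hzT : 8 * z * ∑ h ∈ range T, β h ≤ 1 := by
    calc 8 * z * ∑ h ∈ range T, β h ≤ 8 * z * (60 * P) :=
          mul_le_mul_of_nonneg_left hsum (by positivity)
      _ = 480 * (z * P) := by ring
      _ = 1 := by rw [hzP]; norm_num
  have hmain := first_step (x := mu0⁻¹) (z := z) (E := E) (L0 := m + 1) (T := T) (β := β)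
    (by positivity) hz0.le (by linarith) hβ0
    (fun w F hF => by rw [hE]; exact tot hK hcn m w F hF)
    (fun w s G hws hG => by rw [hβ]; exact mass w s G hws hG) hzT v u F
    (fun b hb => by
      obtain ⟨⟨a1, a2, a3, a4⟩, -⟩ := hF b hb
      exact ⟨a2, a3, a4, by omega⟩)
  have hlow : (F.card : ℝ) * (mu0⁻¹ ^ (m + 1) * Real.exp (A / 960)) ≤
      ∑ b ∈ F, mu0⁻¹ ^ b.length * (1 + z) ^ (CW u (u + T) b).card := by
    rw [← nsmul_eq_mul, ← Finset.sum_const]
    apply Finset.sum_le_sum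
    intro b hb
    obtain ⟨⟨a1, -, -, -⟩, a5⟩ := hF b hb
    rw [a1]
    apply mul_le_mul_of_nonneg_left _ (by positivity)
    obtain ⟨N, hN⟩ : ∃ N, N = (CW u (u + T) b).card := ⟨_, rfl⟩
    rw [← hN] at a5 ⊢
    have h1 : Real.exp (z / 2) ≤ 1 + z := by
      rw [← Real.le_log_iff_exp_le (by linarith)]
      have h2 := Real.one_sub_inv_le_log_of_pos (by linarith : 0 < 1 + z)
      have h3 : z / 2 ≤ 1 - (1 + z)⁻¹ := by
        have h4 : 1 - (1 + z)⁻¹ = z / (1 + z) := by field_simp; ring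
        rw [h4]
        exact div_le_div_of_nonneg_left hz0.le (by linarith) (by linarith)
      linarith
    calc Real.exp (A / 960) ≤ Real.exp (N * (z / 2)) := by
          apply Real.exp_le_exp.2
          have h5 := mul_le_mul_of_nonneg_left a5 (by positivity : 0 ≤ z / 2)
          have h6 : z / 2 * (A * P) = A / 960 := by
            calc z / 2 * (A * P) = A / 2 * (z * P) := by ring
              _ = A / 960 := by rw [hzP]; ring
          linarith
      _ = Real.exp (z / 2) ^ N := by rw [← Real.exp_nat_mul]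
      _ ≤ (1 + z) ^ N := pow_le_pow_left₀ (Real.exp_pos _).le h1 N
  have hup : E + z * (T * (E * (8 * E))) ≤ 9 * T * E ^ 2 := by
    have h1 : 0 ≤ T * (E * (8 * E)) := by positivity
    have h2 : z * (T * (E * (8 * E))) ≤ 1 * (T * (E * (8 * E))) := mul_le_mul_of_nonneg_right hz1 h1
    have h3 : E ≤ T * E ^ 2 := by
      have h4 : 1 * E ≤ E * E := mul_le_mul_of_nonneg_right hE1 (by linarith)
      have h5 : 1 * (E * E) ≤ T * (E * E) := mul_le_mul_of_nonneg_right hTr (by positivity)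
      nlinarith
    nlinarith
  have h1 := (hlow.trans hmain).trans hup
  have e1 : mu0 ^ (m + 1) * (9 * T * E ^ 2) * Real.exp (-(A / 960)) =
      (9 * T * E ^ 2) / (mu0⁻¹ ^ (m + 1) * Real.exp (A / 960)) := by
    rw [Real.exp_neg, inv_pow]
    field_simp
  rw [e1, le_div_iff₀ (by positivity)]
  exact h1

end Run7.h618.CL
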