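import Pool.Agent.Y981.QB.Stm
import Pool.Agent.TH232.WX.CutA

set_option autoImplicit false

/-! Cut levels of lists of vertices of the honeycomb lattice: the exponential moment recursion. -/

namespace Run7.h618.CL

open Finset
open H978R2.Hex (V Adj)

/-- level -/
def lv (v : V) : ℤ := v.1 - v.2

theorem lv_adj {p q : V} (h : Adj p q) : lv q ≤ lv p + 1 ∧ lv p ≤ lv q + 1 := by
  rw [H978R2.Hex.adj_iff] at h
  unfold lv
  omega

/-- the level `t` is crossed exactly once, upwards -/
def UpCut (t : ℤ) (b : List V) : Prop :=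
  ∃ a c, b = a ++ c ∧ a ≠ [] ∧ c ≠ [] ∧ (∀ v ∈ a, lv v ≤ t) ∧ ∀ v ∈ c, t < lv v

/-- the part before the crossing -/
def tk (t : ℤ) (b : List V) : List V := b.takeWhile (fun v => decide (lv v ≤ t))

/-- the part after the crossing -/
def dr (t : ℤ) (b : List V) : List V := b.dropWhile (fun v => decide (lv v ≤ t))

theorem tk_dr (t : ℤ) (b : List V) : tk t b ++ dr t b = b := List.takeWhile_append_dropWhile

theorem split_eq {t : ℤ} {a c : List V} (ha : ∀ v ∈ a, lv v ≤ t) (hc : ∀ v ∈ c, t < lv v) :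
    tk t (a ++ c) = a ∧ dr t (a ++ c) = c := by
  unfold tk dr
  have h1 : ∀ v ∈ a, (fun v => decide (lv v ≤ t)) v = true := by
    intro v hv
    exact decide_eq_true (ha v hv)
  constructor
  · rw [List.takeWhile_append_of_pos h1]
    cases c with
    | nil => simp
    | cons x c =>
      have := hc x List.mem_cons_self
      rw [List.takeWhile_cons_of_neg (by simp; omega)]
      simp
  · rw [List.dropWhile_append_of_pos h1]
    cases c with
    | nil => simp
    | cons x c =>
      have := hc x List.mem_cons_self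
      rw [List.dropWhile_cons_of_neg (by simp; omega)]

theorem UpCut.spec {t : ℤ} {b : List V} (h : UpCut t b) : tk t b ≠ [] ∧ dr t b ≠ [] ∧
    (∀ v ∈ tk t b, lv v ≤ t) ∧ ∀ v ∈ dr t b, t < lv v := by
  obtain ⟨a, c, rfl, h1, h2, h3, h4⟩ := h
  obtain ⟨e1, e2⟩ := split_eq h3 h4
  rw [e1, e2]
  exact ⟨h1, h2, h3, h4⟩

theorem UpCut.head {t : ℤ} {b : List V} (h : UpCut t b) {w : V} (hw : b.head? = some w) :
    lv w ≤ t := by
  obtain ⟨a, c, rfl, h1, h2, h3, h4⟩ := h
  cases a with
  | nil => exact absurd rfl h1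
  | cons x a =>
    simp only [List.cons_append, List.head?_cons, Option.some.injEq] at hw
    rw [← hw]
    exact h3 x List.mem_cons_self

/-- the level of the last vertex before and of the first vertex after the crossing -/
theorem cross {t : ℤ} {b : List V} (h : UpCut t b) (hb : b.IsChain Adj) :
    ∃ x y, (tk t b).getLast? = some x ∧ (dr t b).head? = some y ∧ Adj x y ∧ lv x = t ∧ lv y = t + 1 := by
  obtain ⟨h1, h2, h3, h4⟩ := h.spec
  rw [← tk_dr t b, List.isChain_append] at hb
  obtain ⟨-, -, hb⟩ := hb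
  obtain ⟨x, hx⟩ : ∃ x, (tk t b).getLast? = some x :=
    ⟨_, List.getLast?_eq_some_getLast h1⟩
  obtain ⟨y, hy⟩ : ∃ y, (dr t b).head? = some y := ⟨_, List.head?_eq_some_head h2⟩
  have ha := hb x hx y hy
  have hx' := h3 x (List.mem_of_getLast? hx)
  have hy' := h4 y (List.mem_of_mem_head? hy)
  have := lv_adj ha
  exact ⟨x, y, hx, hy, ha, by omega, by omega⟩

theorem cut_drop {s t : ℤ} {b : List V} (hb : b.IsChain Adj) (hs : UpCut s b) (ht : UpCut t b)
    (hst : s < t) : UpCut t (dr s b) := by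
  obtain ⟨x, y, hx, hy, hxy, hlx, hly⟩ := cross hs hb
  obtain ⟨h1, h2, h3, h4⟩ := hs.spec
  obtain ⟨a', c', e, h1', h2', h3', h4'⟩ := ht
  have e2 : tk s b ++ dr s b = a' ++ c' := by rw [tk_dr, e]
  rcases List.append_eq_append_iff.1 e2 with ⟨d, e3, e4⟩ | ⟨d, e3, e4⟩
  · refine ⟨d, c', e4, ?_, h2', ?_, h4'⟩
    · rintro rfl
      rw [List.nil_append] at e4
      have := h4' y (by rw [← e4]; exact List.mem_of_mem_head? hy)
      omega
    · intro v hv
      exact h3' v (by rw [e3]; exact List.mem_append_right _ hv)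
  · exfalso
    cases d with
    | nil =>
      rw [List.nil_append] at e4
      have := h4' y (by rw [e4]; exact List.mem_of_mem_head? hy)
      omega
    | cons z d =>
      have h5 := h3 z (by rw [e3]; simp)
      have h6 := h4' z (by rw [e4]; simp)
      omega

/-- telescoping -/
theorem pow_id (z : ℝ) (S : Finset ℤ) :
    (1 + z) ^ S.card = 1 + z * ∑ s ∈ S, (1 + z) ^ (S.filter (fun t => s < t)).card := by
  induction S using Finset.induction_on_min with
  | empty => simp
  | insert a S h ih =>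
    have ha : a ∉ S := fun h' => lt_irrefl _ (h a h')
    have e1 : ∀ s ∈ S, (insert a S).filter (fun t => s < t) = S.filter (fun t => s < t) := by
      intro s hs
      rw [Finset.filter_insert, if_neg (not_lt.2 (h s hs).le)]
    have e2 : (insert a S).filter (fun t => a < t) = S := by
      rw [Finset.filter_insert, if_neg (lt_irrefl _)]
      exact Finset.filter_true_of_mem h
    rw [Finset.card_insert_of_notMem ha, Finset.sum_insert ha, e2,
      Finset.sum_congr rfl (fun s hs => by rw [e1 s hs]), pow_succ]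
    linear_combination (1 : ℝ) * ih

open Classical in
/-- the cut levels in `[u, U)` -/
noncomputable def CW (u U : ℤ) (b : List V) : Finset ℤ := (Finset.Ico u U).filter (fun t => UpCut t b)

theorem mem_CW {u U t : ℤ} {b : List V} : t ∈ CW u U b ↔ u ≤ t ∧ t < U ∧ UpCut t b := by
  classical
  unfold CW
  rw [Finset.mem_filter, Finset.mem_Ico, and_assoc]

/-- the level of the first vertex -/
def lo (b : List V) : ℤ := lv (b.headD (0, 0))

theorem lo_eq {b : List V} {w : V} (h : b.head? = some w) : lo b = lv w := by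
  unfold lo
  rw [List.headD_eq_head?_getD, h]
  rfl

/-- weight -/
noncomputable def Φ (z : ℝ) (U : ℤ) (b : List V) : ℝ := (1 + z) ^ (CW (lo b) U b).card

theorem Φ_nonneg {z : ℝ} (hz : 0 ≤ z) (U : ℤ) (b : List V) : 0 ≤ Φ z U b := by
  unfold Φ
  positivity

theorem pow_CW_le {z : ℝ} (hz : 0 ≤ z) (u U : ℤ) {b : List V} (hb : b.IsChain Adj) :
    (1 + z) ^ (CW u U b).card ≤ 1 + z * ∑ s ∈ CW u U b, Φ z U (dr s b) := by
  rw [pow_id]
  have h : ∀ s ∈ CW u U b, (1 + z) ^ ((CW u U b).filter (fun t => s < t)).card ≤ Φ z U (dr s b) := by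
    intro s hs
    unfold Φ
    apply pow_le_pow_right₀ (by linarith)
    apply Finset.card_le_card
    intro t ht
    rw [Finset.mem_filter, mem_CW] at ht
    rw [mem_CW] at hs
    obtain ⟨x, y, hx, hy, hxy, hlx, hly⟩ := cross hs.2.2 hb
    rw [mem_CW, lo_eq hy]
    exact ⟨by omega, ht.1.2.1, cut_drop hb hs.2.2 ht.1.2.2 ht.2⟩
  have := Finset.sum_le_sum h
  nlinarith

/-- the four candidates for the neighbours -/
def N4 (x : V) : Finset V := {(x.1 + 1, x.2), (x.1 - 1, x.2), (x.1, x.2 + 1), (x.1, x.2 - 1)}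

theorem mem_N4 {x y : V} (h : Adj x y) : y ∈ N4 x := by
  rw [H978R2.Hex.adj_iff] at h
  obtain ⟨a, b⟩ := y
  unfold N4
  simp only [Finset.mem_insert, Finset.mem_singleton, Prod.mk.injEq]
  simp only at h
  omega

theorem card_N4 (x : V) : (N4 x).card ≤ 4 := Finset.card_le_four

open Classical in
/-- the sum over the walks with a given crossing -/
theorem split_sum {x : ℝ} (hx : 0 ≤ x) (s : ℤ) (F : Finset (List V))
    (hF : ∀ b ∈ F, b.IsChain Adj ∧ UpCut s b) (g : List V → ℝ) (hg : ∀ c, 0 ≤ g c) (Q : ℝ)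
    (hQ : ∀ w : V, ∑ c ∈ (F.image (dr s)).filter (fun c => c.head? = some w), x ^ c.length * g c ≤ Q) :
    ∑ b ∈ F, x ^ b.length * g (dr s b) ≤ (∑ a ∈ F.image (tk s), x ^ a.length) * (4 * Q) := by
  have hQ0 : 0 ≤ Q := le_trans (Finset.sum_nonneg fun c _ => mul_nonneg (by positivity) (hg c))
    (hQ (0, 0))
  rw [← Finset.sum_fiberwise_of_maps_to (t := F.image (tk s)) (g := tk s)
    (fun b hb => Finset.mem_image_of_mem _ hb), Finset.sum_mul]
  apply Finset.sum_le_sum
  intro a ha
  have e1 : ∑ b ∈ F with tk s b = a, x ^ b.length * g (dr s b) =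
      x ^ a.length * ∑ b ∈ F with tk s b = a, x ^ (dr s b).length * g (dr s b) := by
    rw [Finset.mul_sum]
    refine Finset.sum_congr rfl fun b hb => ?_
    rw [Finset.mem_filter] at hb
    have e : b.length = a.length + (dr s b).length := by
      conv_lhs => rw [← tk_dr s b, List.length_append, hb.2]
    rw [e, pow_add, mul_assoc]
  rw [e1]
  apply mul_le_mul_of_nonneg_left _ (by positivity)
  have e2 : ∑ b ∈ F with tk s b = a, x ^ (dr s b).length * g (dr s b) =
      ∑ c ∈ (F.filter (fun b => tk s b = a)).image (dr s), x ^ c.length * g c := by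
    rw [Finset.sum_image]
    intro b hb b' hb' h
    simp only [Finset.coe_filter, Set.mem_ofPred_eq] at hb hb'
    rw [← tk_dr s b, ← tk_dr s b', hb.2, hb'.2, h]
  rw [e2]
  obtain ⟨b0, hb0, hab⟩ := Finset.mem_image.1 ha
  obtain ⟨x0, y0, hx0, -, -, -, -⟩ := cross (hF b0 hb0).2 (hF b0 hb0).1
  rw [hab] at hx0
  have hmaps : ∀ c ∈ (F.filter (fun b => tk s b = a)).image (dr s), c.headD (0, 0) ∈ N4 x0 := by
    intro c hc
    obtain ⟨b, hb, rfl⟩ := Finset.mem_image.1 hc
    rw [Finset.mem_filter] at hb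
    obtain ⟨x1, y1, hx1, hy1, hxy1, -, -⟩ := cross (hF b hb.1).2 (hF b hb.1).1
    rw [hb.2, hx0, Option.some.injEq] at hx1
    rw [List.headD_eq_head?_getD, hy1, Option.getD_some, hx1]
    exact mem_N4 hxy1
  rw [← Finset.sum_fiberwise_of_maps_to hmaps]
  calc ∑ w ∈ N4 x0, ∑ c ∈ (F.filter (fun b => tk s b = a)).image (dr s) with c.headD (0, 0) = w,
        x ^ c.length * g c ≤ ∑ _w ∈ N4 x0, Q := by
        apply Finset.sum_le_sum
        intro w hw
        refine le_trans ?_ (hQ w)
        apply Finset.sum_le_sum_of_subset_of_nonneg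
        · intro c hc
          rw [Finset.mem_filter] at hc ⊢
          obtain ⟨hc1, hc2⟩ := hc
          obtain ⟨b, hb, rfl⟩ := Finset.mem_image.1 hc1
          rw [Finset.mem_filter] at hb
          obtain ⟨x1, y1, hx1, hy1, hxy1, -, -⟩ := cross (hF b hb.1).2 (hF b hb.1).1
          rw [List.headD_eq_head?_getD, hy1, Option.getD_some] at hc2
          exact ⟨Finset.mem_image_of_mem _ hb.1, by rw [hy1, hc2]⟩
        · intro c _ _
          exact mul_nonneg (by positivity) (hg c)
    _ = (N4 x0).card * Q := by rw [Finset.sum_const, nsmul_eq_mul]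
    _ ≤ 4 * Q := by
        apply mul_le_mul_of_nonneg_right _ hQ0
        exact_mod_cast card_N4 x0

end Run7.h618.CL
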