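import Pool.Agent.Run7.h618.CL.Fin
import Pool.Agent.Run7.h287.ST.Dom

set_option autoImplicit false

/-! The three directions; the critical curve in a domain. -/

namespace Run7.h618.CL

open Finset
open scoped ENNReal
open H978R2.Hex (V Adj mu0)
open Pool.Agent.Y981.QB (IsSW)

/-- the levels in the three directions -/
def lev (j : Fin 3) (v : ℤ × ℤ) : ℤ := ![v.1 - v.2, v.1 + v.2, 2 * v.2 - (v.1 + v.2) % 2] j

/-- exactly one step crosses from `level ≤ t` to `level > t` or back -/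
def Cut (j : Fin 3) (t : ℤ) (l : List (ℤ × ℤ)) : Prop :=
  ∃ a c, l = a ++ c ∧ a ≠ [] ∧ c ≠ [] ∧
    (((∀ v ∈ a, lev j v ≤ t) ∧ ∀ v ∈ c, t < lev j v) ∨
      ((∀ v ∈ a, t < lev j v) ∧ ∀ v ∈ c, lev j v ≤ t))

/-- few cut levels in all windows -/
def Few (A : ℝ) (l : List (ℤ × ℤ)) : Prop := ∀ (j : Fin 3) (u : ℤ) (T : ℕ), 1 ≤ T →
  (Set.ncard {t : ℤ | u ≤ t ∧ t < u + T ∧ Cut j t l} : ℝ) ≤ A * (T : ℝ) ^ (177 / 200 : ℝ)

/-- the symmetries -/
def gg (j : Fin 3) (v : V) : V :=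
  ![v, (v.1 + 1, -v.2),
    (v.2 - (v.1 - v.2 + 1) / 2, (v.1 + v.2) % 2 - v.2 - (v.1 - v.2 + 1) / 2)] j

/-- the shifts -/
def dd (j : Fin 3) : ℤ := ![0, 1, 0] j

theorem lv_gg (j : Fin 3) (v : V) : lv (gg j v) = lev j v + dd j := by
  fin_cases j
  · simp [lv, gg, lev, dd]
  · simp only [lv, gg, lev, dd, Matrix.cons_val_one, Matrix.cons_val_zero, Fin.mk_one,
      Fin.isValue]
    ring
  · show (v.2 - (v.1 - v.2 + 1) / 2) - ((v.1 + v.2) % 2 - v.2 - (v.1 - v.2 + 1) / 2) =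
      2 * v.2 - (v.1 + v.2) % 2 + 0
    ring

theorem gg_inj (j : Fin 3) : Function.Injective (gg j) := by
  rintro ⟨a, b⟩ ⟨c, d⟩ h
  fin_cases j
  · exact h
  · have h' : ((a + 1, -b) : ℤ × ℤ) = (c + 1, -d) := h
    rw [Prod.mk.injEq] at h' ⊢
    omega
  · have h' : ((b - (a - b + 1) / 2, (a + b) % 2 - b - (a - b + 1) / 2) : ℤ × ℤ) =
      (d - (c - d + 1) / 2, (c + d) % 2 - d - (c - d + 1) / 2) := h
    rw [Prod.mk.injEq] at h' ⊢
    omega

theorem gg_adj (j : Fin 3) {p q : V} (h : Adj p q) : Adj (gg j p) (gg j q) := by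
  obtain ⟨a, b⟩ := p
  obtain ⟨c, d⟩ := q
  rw [H978R2.Hex.adj_iff] at h
  simp only at h
  fin_cases j
  · show Adj (a, b) (c, d)
    rw [H978R2.Hex.adj_iff]
    exact h
  · show Adj (a + 1, -b) (c + 1, -d)
    rw [H978R2.Hex.adj_iff]
    simp only
    omega
  · show Adj (b - (a - b + 1) / 2, (a + b) % 2 - b - (a - b + 1) / 2)
      (d - (c - d + 1) / 2, (c + d) % 2 - d - (c - d + 1) / 2)
    rw [H978R2.Hex.adj_iff]
    simp only
    rcases h with ⟨h1, h2⟩ | ⟨h1, h2⟩ | ⟨h1, h2, h3⟩ | ⟨h1, h2, h3⟩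
    · obtain rfl : c = a + 1 := by omega
      obtain rfl : d = b := by omega
      omega
    · obtain rfl : c = a - 1 := by omega
      obtain rfl : d = b := by omega
      omega
    · obtain rfl : c = a := by omega
      obtain rfl : d = b + 1 := by omega
      omega
    · obtain rfl : c = a := by omega
      obtain rfl : d = b - 1 := by omega
      omega

theorem isSW_gg (j : Fin 3) {v : V} {m : ℕ} {l : List V} (h : IsSW v m l) :
    IsSW (gg j v) m (l.map (gg j)) := by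
  obtain ⟨h1, h2, h3, h4⟩ := h
  refine ⟨by rw [List.length_map, h1], by rw [List.head?_map, h2]; rfl, ?_, h4.map (gg_inj j)⟩
  rw [List.isChain_map]
  exact h3.imp fun {a b} hab => gg_adj j hab

theorem cut_gg {j : Fin 3} {t : ℤ} {l : List V} (h : Cut j t l) :
    UpCut (t + dd j) (l.map (gg j)) ∨ DownCut (t + dd j) (l.map (gg j)) := by
  obtain ⟨a, c, rfl, h1, h2, h3⟩ := h
  rcases h3 with ⟨h3, h4⟩ | ⟨h3, h4⟩
  · left
    refine ⟨a.map (gg j), c.map (gg j), by rw [List.map_append], by simpa using h1,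
      by simpa using h2, ?_, ?_⟩
    · intro v hv
      obtain ⟨w, hw, rfl⟩ := List.mem_map.1 hv
      rw [lv_gg]
      have := h3 w hw
      omega
    · intro v hv
      obtain ⟨w, hw, rfl⟩ := List.mem_map.1 hv
      rw [lv_gg]
      have := h4 w hw
      omega
  · right
    refine ⟨a.map (gg j), c.map (gg j), by rw [List.map_append], by simpa using h1,
      by simpa using h2, ?_, ?_⟩
    · intro v hv
      obtain ⟨w, hw, rfl⟩ := List.mem_map.1 hv
      rw [lv_gg]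
      have := h3 w hw
      omega
    · intro v hv
      obtain ⟨w, hw, rfl⟩ := List.mem_map.1 hv
      rw [lv_gg]
      have := h4 w hw
      omega

theorem bad_dir {A : ℝ} {l : List V} (h : ¬ Few A l) : ∃ j : Fin 3, ¬ GoodL A (l.map (gg j)) := by
  by_contra hcon
  push Not at hcon
  apply h
  intro j u T hT
  refine le_trans ?_ (hcon j (u + dd j) T hT)
  have hsub : (fun t => t + dd j) '' {t : ℤ | u ≤ t ∧ t < u + T ∧ Cut j t l} ⊆
      {t : ℤ | u + dd j ≤ t ∧ t < u + dd j + T ∧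
        (UpCut t (l.map (gg j)) ∨ DownCut t (l.map (gg j)))} := by
    rintro _ ⟨t, ⟨h1, h2, h3⟩, rfl⟩
    refine ⟨?_, ?_, cut_gg h3⟩
    · show u + dd j ≤ t + dd j
      omega
    · show t + dd j < u + dd j + T
      omega
  have hfin : {t : ℤ | u + dd j ≤ t ∧ t < u + dd j + T ∧
      (UpCut t (l.map (gg j)) ∨ DownCut t (l.map (gg j)))}.Finite := by
    apply (Set.finite_Ico (u + dd j) (u + dd j + T)).subset
    rintro t ⟨h1, h2, -⟩
    exact ⟨h1, h2⟩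
  have h1 := Set.ncard_le_ncard hsub hfin
  rw [Set.ncard_image_of_injective _ (add_left_injective (dd j))] at h1
  exact_mod_cast h1

/-- **the count, three directions** -/
theorem few_count : ∃ K c : ℝ, 0 ≤ K ∧ 0 < c ∧ ∀ (A : ℝ) (m : ℕ) (v : V) (F : Finset (List V)),
    0 < A → (∀ l ∈ F, IsSW v m l ∧ ¬ Few A l) →
      (F.card : ℝ) ≤ mu0 ^ m * Real.exp (K * Real.log (m + 2) ^ 2 - c * A) := by
  classical
  obtain ⟨K, c, hK, hc, h⟩ := cut_count
  refine ⟨K + 5, c, by linarith, hc, fun A m v F hA hF => ?_⟩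
  have hmu0 : 0 < mu0 := by linarith [one_le_mu0]
  have hub := Pool.Agent.Y981.QB.union_bound F (Finset.univ : Finset (Fin 3))
    (fun l j => ¬ GoodL A (l.map (gg j)))
    (mu0 ^ m * Real.exp (K * Real.log (m + 2) ^ 2 - c * A))
    (by
      intro l hl
      obtain ⟨j, hj⟩ := bad_dir (hF l hl).2
      exact ⟨j, Finset.mem_univ _, hj⟩)
    (by
      intro j _ G hGF hG
      have h1 := h A m (gg j v) (G.image (List.map (gg j))) hA (by
        intro l' hl'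
        obtain ⟨l, hl, rfl⟩ := Finset.mem_image.1 hl'
        exact ⟨isSW_gg j (hF l (hGF hl)).1, hG l hl⟩)
      rwa [Finset.card_image_of_injective _ (List.map_injective_iff.2 (gg_inj j))] at h1)
  rw [Finset.card_univ, Fintype.card_fin] at hub
  refine hub.trans ?_
  obtain ⟨L, hL⟩ : ∃ L, L = Real.log ((m : ℝ) + 2) := ⟨_, rfl⟩
  have hm0 : (0 : ℝ) ≤ m := Nat.cast_nonneg m
  have hL1 : 1 / 2 ≤ L := by
    have h1 := Real.log_two_gt_d9
    have h2 : Real.log 2 ≤ L := by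
      rw [hL]
      exact Real.log_le_log (by norm_num) (by linarith)
    linarith
  have h3 : (3 : ℝ) ≤ Real.exp (5 * L ^ 2) := by
    have h4 : (2 : ℝ) ≤ Real.exp 1 := by
      have := Real.add_one_le_exp (1 : ℝ)
      linarith
    have h5 : 5 * L ^ 2 + 1 ≤ Real.exp (5 * L ^ 2) := Real.add_one_le_exp _
    have h6 : Real.exp (5 / 4) ≤ Real.exp (5 * L ^ 2) := Real.exp_le_exp.2 (by nlinarith)
    have h7 : (3 : ℝ) ≤ Real.exp (5 / 4) := by
      have h8 : Real.exp (5 / 4) = Real.exp 1 * Real.exp (1 / 4) := by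
        rw [← Real.exp_add]
        norm_num
      have h9 := Real.exp_one_gt_d9
      have h10 : (1 : ℝ) / 4 + 1 ≤ Real.exp (1 / 4) := Real.add_one_le_exp _
      rw [h8]
      nlinarith
    linarith
  rw [← hL]
  have e : (K + 5) * L ^ 2 - c * A = 5 * L ^ 2 + (K * L ^ 2 - c * A) := by ring
  rw [e, Real.exp_add]
  have h5 : 0 ≤ mu0 ^ m * Real.exp (K * L ^ 2 - c * A) := by positivity
  push_cast
  nlinarith

open Pool.Agent.Results.MP_f5481b_pr.DomainTwoPoint (Z emb HD Hd Bd)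

/-- **the critical curve in a domain** -/
theorem domain_few (Ω : Set ℂ) (hΩ : IsOpen Ω) (hc : IsConnected Ω) (a b : ℂ) (hab : a ≠ b)
    (ε ε' : ℝ) (hε : ε = 1 ∨ ε = -1) (hε' : ε' = 1 ∨ ε' = -1) (r R : ℝ) (hr : 0 < r)
    (ha : HD a ε r ⊆ Ω) (hb : HD b ε' r ⊆ Ω) :
    ∃ K : Set ℂ, K ⊆ Ω ∧ IsCompact K ∧ ∃ C : ℝ, 1 ≤ C ∧ ∀ δ : ℝ, 0 < δ → C * δ ≤ 1 →
      ∀ (D : Set (ℤ × ℤ)) (p q : ℤ × ℤ), Bd ε p → Bd ε' q →
      C * ‖(δ : ℂ) * emb p - a‖ ≤ 1 → C * ‖(δ : ℂ) * emb q - b‖ ≤ 1 →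
      (∀ v : ℤ × ℤ, (δ : ℂ) * emb v ∈ K → v ∈ D) → Hd δ ε r p ⊆ D → Hd δ ε' r q ⊆ D →
      (∀ v ∈ D, ‖(δ : ℂ) * emb v‖ ≤ R) →
      Z D p q ≠ 0 ∧ Z D p q ≠ ⊤ ∧ ∀ x : ℝ, 0 ≤ x →
        Run7.h287.ST.Zb D p q (Few (C * (Real.log (1 / δ) ^ 2 + x))) ≤
          ENNReal.ofReal (Real.exp (-x)) * Z D p q := by
  obtain ⟨K0, c, hK0, hc0, h⟩ := few_count
  exact Run7.h287.ST.domain_transfer Few K0 c hK0 hc0 h Ω hΩ hc a b hab ε ε' hε hε' r R hr ha hb

end Run7.h618.CL
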