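import Pool.Agent.Run7.h618.CL.Cnt
import Pool.Agent.Y981.QB.Uni

set_option autoImplicit false

/-! All windows, both directions. -/

namespace Run7.h618.CL

open Finset
open H978R2.Hex (V Adj mu0)
open Pool.Agent.Y981.QB (IsSW union_bound)

/-- the level `t` is crossed exactly once, downwards -/
def DownCut (t : ℤ) (b : List V) : Prop :=
  ∃ a c, b = a ++ c ∧ a ≠ [] ∧ c ≠ [] ∧ (∀ v ∈ a, t < lv v) ∧ ∀ v ∈ c, lv v ≤ t

/-- in every window of `T` levels there are at most `A T^0.885` cut levels -/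
def GoodL (A : ℝ) (l : List V) : Prop := ∀ (u : ℤ) (T : ℕ), 1 ≤ T →
  (Set.ncard {t : ℤ | u ≤ t ∧ t < u + T ∧ (UpCut t l ∨ DownCut t l)} : ℝ) ≤
    A * (T : ℝ) ^ (177 / 200 : ℝ)

theorem lv_bound : ∀ (l : List V) (v : V), l.head? = some v → l.IsChain Adj → ∀ w ∈ l,
    lv v - (l.length - 1 : ℕ) ≤ lv w ∧ lv w ≤ lv v + (l.length - 1 : ℕ) := by
  intro l
  induction l with
  | nil => intro v h; simp at h
  | cons y t ih =>
    intro v hv hc w hw
    simp only [List.head?_cons, Option.some.injEq] at hv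
    subst hv
    rcases List.mem_cons.1 hw with rfl | hw
    · simp
    · cases t with
      | nil => simp at hw
      | cons z t =>
        rw [List.isChain_cons_cons] at hc
        have h1 := ih z rfl hc.2 w hw
        have h2 := lv_adj hc.1
        simp only [List.length_cons, Nat.add_sub_cancel] at h1 ⊢
        push_cast at h1 ⊢
        omega

/-- a symmetry of the lattice which reverses the levels -/
def rho (v : V) : V := (1 - v.1, -v.2)

theorem rho_inj : Function.Injective rho := by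
  intro p q h
  unfold rho at h
  rw [Prod.mk.injEq] at h
  ext <;> omega

theorem rho_adj {p q : V} (h : Adj p q) : Adj (rho p) (rho q) := by
  rw [H978R2.Hex.adj_iff] at *
  unfold rho
  simp only
  omega

theorem lv_rho (p : V) : lv (rho p) = 1 - lv p := by
  unfold lv rho
  simp only
  ring

theorem up_of_down {t : ℤ} {l : List V} (h : DownCut t l) : UpCut (-t) (l.map rho) := by
  obtain ⟨a, c, rfl, h1, h2, h3, h4⟩ := h
  refine ⟨a.map rho, c.map rho, by rw [List.map_append], by simpa using h1, by simpa using h2, ?_, ?_⟩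
  · intro v hv
    obtain ⟨w, hw, rfl⟩ := List.mem_map.1 hv
    rw [lv_rho]
    have := h3 w hw
    omega
  · intro v hv
    obtain ⟨w, hw, rfl⟩ := List.mem_map.1 hv
    rw [lv_rho]
    have := h4 w hw
    omega

theorem isSW_rho {v : V} {m : ℕ} {l : List V} (h : IsSW v m l) : IsSW (rho v) m (l.map rho) := by
  obtain ⟨h1, h2, h3, h4⟩ := h
  refine ⟨by rw [List.length_map, h1], by rw [List.head?_map, h2]; rfl, ?_, h4.map rho_inj⟩
  rw [List.isChain_map]
  exact h3.imp fun {a b} hab => rho_adj hab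

theorem card_split (u : ℤ) (T : ℕ) (l : List V) :
    Set.ncard {t : ℤ | u ≤ t ∧ t < u + T ∧ (UpCut t l ∨ DownCut t l)} ≤
      (CW u (u + T) l).card + (CW (-u - T + 1) (-u - T + 1 + T) (l.map rho)).card := by
  classical
  have h : {t : ℤ | u ≤ t ∧ t < u + T ∧ (UpCut t l ∨ DownCut t l)} ⊆
      ((CW u (u + T) l ∪ (CW (-u - T + 1) (-u - T + 1 + T) (l.map rho)).image (fun t => -t) :
        Finset ℤ) : Set ℤ) := by
    rintro t ⟨h1, h2, h3⟩
    rw [Finset.mem_coe, Finset.mem_union, mem_CW, Finset.mem_image]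
    rcases h3 with h3 | h3
    · exact Or.inl ⟨h1, h2, h3⟩
    · refine Or.inr ⟨-t, ?_, by ring⟩
      rw [mem_CW]
      exact ⟨by omega, by omega, up_of_down h3⟩
  refine (Set.ncard_le_ncard h (Finset.finite_toSet _)).trans ?_
  rw [Set.ncard_coe_finset]
  refine (Finset.card_union_le _ _).trans ?_
  exact Nat.add_le_add_left Finset.card_image_le _

/-- a bad window can be chosen in a bounded range -/
theorem bad_window {A : ℝ} (hA : 0 < A) {v : V} {m : ℕ} {l : List V} (hl : IsSW v m l)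
    (h : ¬ GoodL A l) : ∃ (u : ℤ) (T : ℕ), 1 ≤ T ∧ T ≤ 2 * m + 1 ∧ lv v - m ≤ u ∧ u ≤ lv v + m ∧
      A * (T : ℝ) ^ (177 / 200 : ℝ) <
        Set.ncard {t : ℤ | u ≤ t ∧ t < u + T ∧ (UpCut t l ∨ DownCut t l)} := by
  classical
  unfold GoodL at h
  push Not at h
  obtain ⟨u, T, hT, hlt⟩ := h
  obtain ⟨S, hS⟩ : ∃ S, S = {t : ℤ | u ≤ t ∧ t < u + T ∧ (UpCut t l ∨ DownCut t l)} := ⟨_, rfl⟩
  rw [← hS] at hlt
  have hfin : S.Finite := by
    apply (Set.finite_Ico u (u + T)).subset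
    rw [hS]
    rintro t ⟨h1, h2, -⟩
    exact ⟨h1, h2⟩
  have hne : S.Nonempty := by
    rw [Set.nonempty_iff_ne_empty]
    rintro h0
    rw [h0, Set.ncard_empty, Nat.cast_zero] at hlt
    have : 0 ≤ A * (T : ℝ) ^ (177 / 200 : ℝ) := by positivity
    linarith
  have hrange : ∀ t ∈ S, lv v - m ≤ t ∧ t ≤ lv v + m := by
    intro t ht
    rw [hS] at ht
    obtain ⟨h1, h2, h3, h4⟩ := hl
    have hb := lv_bound l v h2 h3
    rw [h1, Nat.add_sub_cancel] at hb
    rcases ht.2.2 with ⟨a, c, e, e1, e2, e3, e4⟩ | ⟨a, c, e, e1, e2, e3, e4⟩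
    · obtain ⟨x, hx⟩ := List.exists_mem_of_ne_nil a e1
      obtain ⟨y, hy⟩ := List.exists_mem_of_ne_nil c e2
      have hx1 := hb x (by rw [e]; exact List.mem_append_left _ hx)
      have hy1 := hb y (by rw [e]; exact List.mem_append_right _ hy)
      have := e3 x hx
      have := e4 y hy
      omega
    · obtain ⟨x, hx⟩ := List.exists_mem_of_ne_nil a e1
      obtain ⟨y, hy⟩ := List.exists_mem_of_ne_nil c e2
      have hx1 := hb x (by rw [e]; exact List.mem_append_left _ hx)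
      have hy1 := hb y (by rw [e]; exact List.mem_append_right _ hy)
      have := e3 x hx
      have := e4 y hy
      omega
  obtain ⟨p, hp, hpmin⟩ := Set.exists_min_image S id hfin hne
  obtain ⟨q, hq, hqmax⟩ := Set.exists_max_image S id hfin hne
  simp only [id] at hpmin hqmax
  have hpq := hpmin q hq
  have hp1 := hrange p hp
  have hq1 := hrange q hq
  have hp2 : u ≤ p ∧ p < u + T := by
    rw [hS] at hp
    exact ⟨hp.1, hp.2.1⟩
  have hq2 : u ≤ q ∧ q < u + T := by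
    rw [hS] at hq
    exact ⟨hq.1, hq.2.1⟩
  refine ⟨p, (q - p + 1).toNat, by omega, by omega, hp1.1, hp1.2, ?_⟩
  have hsub : S ⊆ {t : ℤ | p ≤ t ∧ t < p + ((q - p + 1).toNat : ℤ) ∧ (UpCut t l ∨ DownCut t l)} := by
    intro t ht
    have h1 := hpmin t ht
    have h2 := hqmax t ht
    rw [hS] at ht
    exact ⟨h1, by omega, ht.2.2⟩
  have hfin2 : {t : ℤ | p ≤ t ∧ t < p + ((q - p + 1).toNat : ℤ) ∧ (UpCut t l ∨ DownCut t l)}.Finite := by
    apply (Set.finite_Ico p (p + ((q - p + 1).toNat : ℤ))).subset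
    rintro t ⟨h1, h2, -⟩
    exact ⟨h1, h2⟩
  have hc : (S.ncard : ℝ) ≤ Set.ncard {t : ℤ | p ≤ t ∧ t < p + ((q - p + 1).toNat : ℤ) ∧
      (UpCut t l ∨ DownCut t l)} := by
    exact_mod_cast Set.ncard_le_ncard hsub hfin2
  have hTT : (((q - p + 1).toNat : ℕ) : ℝ) ≤ T := by
    have : (q - p + 1).toNat ≤ T := by omega
    exact_mod_cast this
  have hP : (((q - p + 1).toNat : ℕ) : ℝ) ^ (177 / 200 : ℝ) ≤ (T : ℝ) ^ (177 / 200 : ℝ) :=
    Real.rpow_le_rpow (by positivity) hTT (by norm_num)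
  have := mul_le_mul_of_nonneg_left hP hA.le
  linarith

/-- **the count** -/
theorem cut_count : ∃ K c : ℝ, 0 ≤ K ∧ 0 < c ∧ ∀ (A : ℝ) (m : ℕ) (v : V) (F : Finset (List V)),
    0 < A → (∀ l ∈ F, IsSW v m l ∧ ¬ GoodL A l) →
      (F.card : ℝ) ≤ mu0 ^ m * Real.exp (K * Real.log (m + 2) ^ 2 - c * A) := by
  classical
  obtain ⟨K, hK, hcn⟩ := Pool.Agent.Y67.QB.cn
  refine ⟨2 * K + 28, 1 / 1920, by linarith, by norm_num, fun A m v F hA hF => ?_⟩
  have hmu := one_le_mu0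
  have hmu0 : 0 < mu0 := by linarith
  have hm0 : (0 : ℝ) ≤ m := Nat.cast_nonneg m
  obtain ⟨E, hE⟩ : ∃ E, E = ((m : ℝ) + 1) * Real.exp (K * Real.log (m + 2) ^ 2) := ⟨_, rfl⟩
  have hE0 : 0 ≤ E := by rw [hE]; positivity
  obtain ⟨Y, hY⟩ : ∃ Y, Y = mu0 ^ (m + 1) * (9 * (2 * m + 1) * E ^ 2) * Real.exp (-(A / 1920)) :=
    ⟨_, rfl⟩
  obtain ⟨C, hC⟩ : ∃ C : Finset ((ℤ × ℕ) × Bool),
    C = (Finset.Icc (lv v - m) (lv v + m) ×ˢ Finset.Icc 1 (2 * m + 1)) ×ˢ Finset.univ := ⟨_, rfl⟩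
  have hWY : ∀ (w : V) (u : ℤ) (T : ℕ) (G : Finset (List V)), 1 ≤ T → T ≤ 2 * m + 1 →
      (∀ l ∈ G, IsSW w m l ∧ A / 2 * (T : ℝ) ^ (177 / 200 : ℝ) ≤ (CW u (u + T) l).card) →
      (G.card : ℝ) ≤ Y := by
    intro w u T G hT1 hT2 hG
    refine (win_count hK hcn m T hT1 (A / 2) w u G hG).trans ?_
    rw [← hE, hY]
    have e : A / 2 / 960 = A / 1920 := by ring
    rw [e]
    apply mul_le_mul_of_nonneg_right _ (Real.exp_pos _).le
    apply mul_le_mul_of_nonneg_left _ (by positivity)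
    apply mul_le_mul_of_nonneg_right _ (by positivity)
    have : (T : ℝ) ≤ 2 * m + 1 := by exact_mod_cast hT2
    linarith
  have hub := union_bound F C (fun l k => if k.2 = true then
      A / 2 * (k.1.2 : ℝ) ^ (177 / 200 : ℝ) ≤ (CW k.1.1 (k.1.1 + k.1.2) l).card else
      A / 2 * (k.1.2 : ℝ) ^ (177 / 200 : ℝ) ≤
        (CW (-k.1.1 - k.1.2 + 1) (-k.1.1 - k.1.2 + 1 + k.1.2) (l.map rho)).card) Y
    (by
      intro l hl
      obtain ⟨hsw, hbad⟩ := hF l hl
      obtain ⟨u, T, h1, h2, h3, h4, h5⟩ := bad_window hA hsw hbad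
      have h6 : (Set.ncard {t : ℤ | u ≤ t ∧ t < u + T ∧ (UpCut t l ∨ DownCut t l)} : ℝ) ≤
          ((CW u (u + T) l).card : ℝ) + ((CW (-u - T + 1) (-u - T + 1 + T) (l.map rho)).card : ℝ) := by
        exact_mod_cast card_split u T l
      have hmem : ∀ b : Bool, ((u, T), b) ∈ C := by
        intro b
        rw [hC]
        simp only [Finset.mem_product, Finset.mem_Icc, Finset.mem_univ, and_true]
        exact ⟨⟨h3, h4⟩, h1, h2⟩
      rcases le_or_gt (A / 2 * (T : ℝ) ^ (177 / 200 : ℝ)) ((CW u (u + T) l).card : ℝ) with h7 | h7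
      · refine ⟨((u, T), true), hmem _, ?_⟩
        rw [if_pos rfl]
        exact h7
      · refine ⟨((u, T), false), hmem _, ?_⟩
        rw [if_neg (by simp)]
        linarith)
    (by
      rintro ⟨⟨u, T⟩, b⟩ hk G hGF hG
      rw [hC] at hk
      simp only [Finset.mem_product, Finset.mem_Icc, Finset.mem_univ, and_true] at hk
      cases b with
      | true =>
        apply hWY v u T G hk.2.1 hk.2.2
        intro l hl
        have := hG l hl
        rw [if_pos rfl] at this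
        exact ⟨(hF l (hGF hl)).1, this⟩
      | false =>
        have h1 := hWY (rho v) (-u - T + 1) T (G.image (List.map rho)) hk.2.1 hk.2.2 (by
          intro l' hl'
          obtain ⟨l, hl, rfl⟩ := Finset.mem_image.1 hl'
          have := hG l hl
          rw [if_neg (by simp)] at this
          exact ⟨isSW_rho (hF l (hGF hl)).1, this⟩)
        rwa [Finset.card_image_of_injective _ (List.map_injective_iff.2 rho_inj)] at h1)
  have hCc : (C.card : ℝ) = (2 * m + 1) * (2 * m + 1) * 2 := by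
    rw [hC, Finset.card_product, Finset.card_product, Int.card_Icc, Nat.card_Icc, Finset.card_univ,
      Fintype.card_bool]
    have e1 : (lv v + m + 1 - (lv v - m)).toNat = 2 * m + 1 := by omega
    have e2 : 2 * m + 1 + 1 - 1 = 2 * m + 1 := by omega
    rw [e1, e2]
    push_cast
    ring
  rw [hCc, hY] at hub
  refine hub.trans ?_
  obtain ⟨L, hL⟩ : ∃ L, L = Real.log ((m : ℝ) + 2) := ⟨_, rfl⟩
  have hm2 : (2 : ℝ) ≤ (m : ℝ) + 2 := by linarith
  have hL1 : 1 / 2 ≤ L := by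
    have h1 := Real.log_two_gt_d9
    have h2 : Real.log 2 ≤ L := by
      rw [hL]
      exact Real.log_le_log (by norm_num) hm2
    linarith
  have hexpL : Real.exp L = (m : ℝ) + 2 := by
    rw [hL]
    exact Real.exp_log (by linarith)
  have hmu2 : mu0 ≤ 2 := by
    have := mu0_sq
    nlinarith
  have hEE : E ^ 2 = ((m : ℝ) + 1) ^ 2 * Real.exp (2 * K * L ^ 2) := by
    rw [hE, ← hL, mul_pow, ← Real.exp_nat_mul]
    congr 2
    push_cast
    ring
  have hpoly : 36 * (2 * (m : ℝ) + 1) ^ 3 * ((m : ℝ) + 1) ^ 2 ≤ Real.exp (28 * L ^ 2) := by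
    have h1 : Real.exp (14 * L) ≤ Real.exp (28 * L ^ 2) := by
      apply Real.exp_le_exp.2
      nlinarith
    refine le_trans ?_ h1
    have h2 : Real.exp (14 * L) = ((m : ℝ) + 2) ^ 14 := by
      rw [← hexpL, ← Real.exp_nat_mul]
      congr 1
    rw [h2]
    have h3 : 2 * (m : ℝ) + 1 ≤ ((m : ℝ) + 2) ^ 2 := by nlinarith
    have h4 : (2 * (m : ℝ) + 1) ^ 3 ≤ (((m : ℝ) + 2) ^ 2) ^ 3 :=
      pow_le_pow_left₀ (by positivity) h3 3
    have h5 : ((m : ℝ) + 1) ^ 2 ≤ ((m : ℝ) + 2) ^ 2 := pow_le_pow_left₀ (by positivity) (by linarith) 2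
    have h6 : (36 : ℝ) ≤ ((m : ℝ) + 2) ^ 6 := by
      have : (2 : ℝ) ^ 6 ≤ ((m : ℝ) + 2) ^ 6 := pow_le_pow_left₀ (by norm_num) hm2 6
      linarith
    calc 36 * (2 * (m : ℝ) + 1) ^ 3 * ((m : ℝ) + 1) ^ 2
        ≤ ((m : ℝ) + 2) ^ 6 * (((m : ℝ) + 2) ^ 2) ^ 3 * ((m : ℝ) + 2) ^ 2 := by gcongr
      _ = ((m : ℝ) + 2) ^ 14 := by ring
  have hsplit : Real.exp ((2 * K + 28) * Real.log (m + 2) ^ 2 - 1 / 1920 * A) =
      Real.exp (28 * L ^ 2) * (Real.exp (2 * K * L ^ 2) * Real.exp (-(A / 1920))) := by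
    rw [← Real.exp_add, ← Real.exp_add, hL]
    congr 1
    ring
  rw [hsplit, hEE]
  have hX : 0 ≤ mu0 ^ m * (Real.exp (2 * K * L ^ 2) * Real.exp (-(A / 1920))) := by positivity
  calc (2 * (m : ℝ) + 1) * (2 * m + 1) * 2 * (mu0 ^ (m + 1) * (9 * (2 * m + 1) *
        (((m : ℝ) + 1) ^ 2 * Real.exp (2 * K * L ^ 2))) * Real.exp (-(A / 1920)))
      = (mu0 ^ m * (Real.exp (2 * K * L ^ 2) * Real.exp (-(A / 1920)))) *
        (mu0 * (18 * (2 * (m : ℝ) + 1) ^ 3 * ((m : ℝ) + 1) ^ 2)) := by ring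
    _ ≤ (mu0 ^ m * (Real.exp (2 * K * L ^ 2) * Real.exp (-(A / 1920)))) *
        (2 * (18 * (2 * (m : ℝ) + 1) ^ 3 * ((m : ℝ) + 1) ^ 2)) := by gcongr
    _ = (mu0 ^ m * (Real.exp (2 * K * L ^ 2) * Real.exp (-(A / 1920)))) *
        (36 * (2 * (m : ℝ) + 1) ^ 3 * ((m : ℝ) + 1) ^ 2) := by ring
    _ ≤ (mu0 ^ m * (Real.exp (2 * K * L ^ 2) * Real.exp (-(A / 1920)))) * Real.exp (28 * L ^ 2) :=
        mul_le_mul_of_nonneg_left hpoly hX
    _ = mu0 ^ m * (Real.exp (28 * L ^ 2) *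
        (Real.exp (2 * K * L ^ 2) * Real.exp (-(A / 1920)))) := by ring

end Run7.h618.CL
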