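import Pool.Agent.Run7.h618.CL.Cut

set_option autoImplicit false

/-! The exponential moment of the number of cut levels. -/

namespace Run7.h618.CL

open Finset
open H978R2.Hex (V Adj)

/-- self-avoiding walks from `w` with at most `L` vertices -/
def Wk (w : V) (L : ℕ) (b : List V) : Prop :=
  b.head? = some w ∧ b.IsChain Adj ∧ b.Nodup ∧ b.length ≤ L

/-- self-avoiding walks from `w` to the level `s` which stay between the levels -/
def Bk (w : V) (s : ℤ) (a : List V) : Prop :=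
  a.head? = some w ∧ a.IsChain Adj ∧ a.Nodup ∧ (∀ v ∈ a, lv w ≤ lv v ∧ lv v ≤ s) ∧
    ∃ x, a.getLast? = some x ∧ lv x = s

theorem head_tk {s : ℤ} {b : List V} {w : V} (h : UpCut s b) (hw : b.head? = some w) :
    (tk s b).head? = some w := by
  have h1 := h.spec.1
  rw [← tk_dr s b] at hw
  cases e : tk s b with
  | nil => exact absurd e h1
  | cons y t =>
    rw [e] at hw
    simpa using hw

theorem wk_tk {w : V} {L : ℕ} {b : List V} {s : ℤ} (hb : Wk w L b) (h : UpCut s b) :
    Wk w L (tk s b) := by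
  obtain ⟨h1, h2, h3, h4⟩ := hb
  have e := tk_dr s b
  refine ⟨head_tk h h1, ?_, ?_, ?_⟩
  · rw [← e, List.isChain_append] at h2
    exact h2.1
  · rw [← e] at h3
    exact (List.nodup_append.1 h3).1
  · rw [← e, List.length_append] at h4
    omega

theorem wk_dr {w : V} {L : ℕ} {b : List V} {s : ℤ} (hb : Wk w (L + 1) b) (h : UpCut s b) {y : V}
    (hy : (dr s b).head? = some y) : Wk y L (dr s b) := by
  obtain ⟨h1, h2, h3, h4⟩ := hb
  have e := tk_dr s b
  refine ⟨hy, ?_, ?_, ?_⟩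
  · rw [← e, List.isChain_append] at h2
    exact h2.2.1
  · rw [← e] at h3
    exact (List.nodup_append.1 h3).2.1
  · have := List.length_pos_of_ne_nil h.spec.1
    rw [← e, List.length_append] at h4
    omega

open Classical in
theorem swap_sum (u U : ℤ) (F : Finset (List V)) (f : List V → ℤ → ℝ) :
    ∑ b ∈ F, ∑ s ∈ CW u U b, f b s =
      ∑ s ∈ Finset.Ico u U, ∑ b ∈ F.filter (fun b => UpCut s b), f b s := by
  unfold CW
  simp only [Finset.sum_filter]
  rw [Finset.sum_comm]

section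
variable {x z E : ℝ} {L0 T : ℕ} {β : ℕ → ℝ}

theorem rec_bound (hx : 0 ≤ x) (hz : 0 ≤ z) (hE0 : 0 ≤ E) (hβ0 : ∀ h, 0 ≤ β h)
    (hE : ∀ (w : V) (F : Finset (List V)), (∀ b ∈ F, Wk w L0 b) → ∑ b ∈ F, x ^ b.length ≤ E)
    (hB : ∀ (w : V) (s : ℤ) (G : Finset (List V)), lv w ≤ s → (∀ a ∈ G, Bk w s a) →
      ∑ a ∈ G, x ^ a.length ≤ β (s - lv w).toNat)
    (hzT : 8 * z * ∑ h ∈ range T, β h ≤ 1) :
    ∀ L : ℕ, L ≤ L0 → ∀ (w : V) (U : ℤ) (F : Finset (List V)), U ≤ lv w + T →
      (∀ b ∈ F, Wk w L b ∧ ∀ v ∈ b, lv w ≤ lv v) → ∑ b ∈ F, x ^ b.length * Φ z U b ≤ 2 * E := by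
  classical
  intro L
  induction L with
  | zero =>
    intro _ w U F _ hF
    have : F = ∅ := Finset.eq_empty_of_forall_notMem (fun b hb => by
      obtain ⟨⟨h1, -, -, h4⟩, -⟩ := hF b hb
      have : b = [] := List.eq_nil_of_length_eq_zero (by omega)
      rw [this] at h1
      simp at h1)
    rw [this, Finset.sum_empty]
    positivity
  | succ L ih =>
    intro hL w U F hU hF
    have h1 : ∀ b ∈ F, x ^ b.length * Φ z U b ≤ x ^ b.length +
        z * ∑ s ∈ CW (lv w) U b, x ^ b.length * Φ z U (dr s b) := by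
      intro b hb
      have h2 := pow_CW_le hz (lv w) U (hF b hb).1.2.1
      have e : Φ z U b = (1 + z) ^ (CW (lv w) U b).card := by
        unfold Φ
        rw [lo_eq (hF b hb).1.1]
      rw [e, ← Finset.mul_sum]
      have h3 : 0 ≤ x ^ b.length := by positivity
      nlinarith
    have h2 : ∑ b ∈ F, x ^ b.length ≤ E := hE w F (fun b hb => by
      obtain ⟨⟨a1, a2, a3, a4⟩, -⟩ := hF b hb
      exact ⟨a1, a2, a3, by omega⟩)
    have h3 : ∀ s ∈ Finset.Ico (lv w) U, ∑ b ∈ F.filter (fun b => UpCut s b),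
        x ^ b.length * Φ z U (dr s b) ≤ β (s - lv w).toNat * (8 * E) := by
      intro s hs
      rw [Finset.mem_Ico] at hs
      have h4 := split_sum hx s (F.filter (fun b => UpCut s b)) (fun b hb => by
        rw [Finset.mem_filter] at hb
        exact ⟨(hF b hb.1).1.2.1, hb.2⟩) (Φ z U) (Φ_nonneg hz U) (2 * E) (fun w' => by
        obtain ⟨C, hC⟩ : ∃ C, C = ((F.filter (fun b => UpCut s b)).image (dr s)).filter
          (fun c => c.head? = some w') := ⟨_, rfl⟩
        rw [← hC]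
        have hmem : ∀ c ∈ C, ∃ b ∈ F, UpCut s b ∧ c = dr s b ∧ c.head? = some w' := by
          intro c hc
          rw [hC, Finset.mem_filter, Finset.mem_image] at hc
          obtain ⟨⟨b, hb, rfl⟩, h5⟩ := hc
          rw [Finset.mem_filter] at hb
          exact ⟨b, hb.1, hb.2, rfl, h5⟩
        rcases C.eq_empty_or_nonempty with h0 | ⟨c0, hc0⟩
        · rw [h0, Finset.sum_empty]
          positivity
        · have hlw : lv w' = s + 1 := by
            obtain ⟨b, hb, hcut, hcb, hhd⟩ := hmem c0 hc0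
            obtain ⟨x1, y1, hx1, hy1, -, -, hly⟩ := cross hcut (hF b hb).1.2.1
            rw [hcb, hy1, Option.some.injEq] at hhd
            rw [← hhd, hly]
          refine ih (by omega) w' U C (by omega) (fun c hc => ?_)
          obtain ⟨b, hb, hcut, hcb, hhd⟩ := hmem c hc
          rw [hcb] at hhd ⊢
          refine ⟨wk_dr (hF b hb).1 hcut hhd, fun v hv => ?_⟩
          have := hcut.spec.2.2.2 v hv
          omega)
      refine h4.trans ?_
      have h5 : ∑ a ∈ (F.filter (fun b => UpCut s b)).image (tk s), x ^ a.length ≤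
          β (s - lv w).toNat := by
        apply hB w s _ hs.1
        intro a ha
        obtain ⟨b, hb, rfl⟩ := Finset.mem_image.1 ha
        rw [Finset.mem_filter] at hb
        obtain ⟨hb1, hb2⟩ := hb
        obtain ⟨a1, a2, a3, a4⟩ := wk_tk (hF b hb1).1 hb2
        obtain ⟨x1, y1, hx1, hy1, -, hlx, hly⟩ := cross hb2 (hF b hb1).1.2.1
        refine ⟨a1, a2, a3, fun v hv => ⟨(hF b hb1).2 v ?_, hb2.spec.2.2.1 v hv⟩, x1, hx1, hlx⟩
        rw [← tk_dr s b]
        exact List.mem_append_left _ hv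
      have h6 := mul_le_mul_of_nonneg_right h5 (by positivity : 0 ≤ 4 * (2 * E))
      linarith
    have h7 : ∑ s ∈ Finset.Ico (lv w) U, β (s - lv w).toNat ≤ ∑ h ∈ range T, β h := by
      rw [← Finset.sum_image (f := β) (g := fun s : ℤ => (s - lv w).toNat)]
      · apply Finset.sum_le_sum_of_subset_of_nonneg
        · intro h hh
          obtain ⟨s, hs, rfl⟩ := Finset.mem_image.1 hh
          rw [Finset.mem_Ico] at hs
          rw [Finset.mem_range]
          omega
        · intro h _ _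
          exact hβ0 h
      · intro s hs s' hs' h
        simp only [Finset.coe_Ico, Set.mem_Ico] at hs hs' h
        omega
    calc ∑ b ∈ F, x ^ b.length * Φ z U b
        ≤ ∑ b ∈ F, (x ^ b.length + z * ∑ s ∈ CW (lv w) U b, x ^ b.length * Φ z U (dr s b)) :=
          Finset.sum_le_sum h1
      _ = ∑ b ∈ F, x ^ b.length + z * ∑ s ∈ Finset.Ico (lv w) U,
          ∑ b ∈ F.filter (fun b => UpCut s b), x ^ b.length * Φ z U (dr s b) := by
          rw [Finset.sum_add_distrib, ← Finset.mul_sum, swap_sum]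
      _ ≤ E + z * ∑ s ∈ Finset.Ico (lv w) U, β (s - lv w).toNat * (8 * E) :=
          add_le_add h2 (mul_le_mul_of_nonneg_left (Finset.sum_le_sum h3) hz)
      _ = E + z * 8 * E * ∑ s ∈ Finset.Ico (lv w) U, β (s - lv w).toNat := by
          rw [← Finset.sum_mul]
          ring
      _ ≤ E + z * 8 * E * ∑ h ∈ range T, β h :=
          add_le_add le_rfl (mul_le_mul_of_nonneg_left h7 (by positivity))
      _ = E + (8 * z * ∑ h ∈ range T, β h) * E := by ring
      _ ≤ E + 1 * E := add_le_add le_rfl (mul_le_mul_of_nonneg_right hzT hE0)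
      _ = 2 * E := by ring

theorem first_step (hx : 0 ≤ x) (hz : 0 ≤ z) (hE0 : 0 ≤ E) (hβ0 : ∀ h, 0 ≤ β h)
    (hE : ∀ (w : V) (F : Finset (List V)), (∀ b ∈ F, Wk w L0 b) → ∑ b ∈ F, x ^ b.length ≤ E)
    (hB : ∀ (w : V) (s : ℤ) (G : Finset (List V)), lv w ≤ s → (∀ a ∈ G, Bk w s a) →
      ∑ a ∈ G, x ^ a.length ≤ β (s - lv w).toNat)
    (hzT : 8 * z * ∑ h ∈ range T, β h ≤ 1) (v : V) (u : ℤ) (F : Finset (List V))
    (hF : ∀ b ∈ F, Wk v L0 b) :
    ∑ b ∈ F, x ^ b.length * (1 + z) ^ (CW u (u + T) b).card ≤ E + z * (T * (E * (8 * E))) := by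
  classical
  have h1 : ∀ b ∈ F, x ^ b.length * (1 + z) ^ (CW u (u + T) b).card ≤ x ^ b.length +
      z * ∑ s ∈ CW u (u + T) b, x ^ b.length * Φ z (u + T) (dr s b) := by
    intro b hb
    have h2 := pow_CW_le hz u (u + T) (hF b hb).2.1
    rw [← Finset.mul_sum]
    have h3 : 0 ≤ x ^ b.length := by positivity
    nlinarith
  have h2 : ∑ b ∈ F, x ^ b.length ≤ E := hE v F hF
  have h3 : ∀ s ∈ Finset.Ico u (u + T), ∑ b ∈ F.filter (fun b => UpCut s b),
      x ^ b.length * Φ z (u + T) (dr s b) ≤ E * (8 * E) := by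
    intro s hs
    rw [Finset.mem_Ico] at hs
    have h4 := split_sum hx s (F.filter (fun b => UpCut s b)) (fun b hb => by
      rw [Finset.mem_filter] at hb
      exact ⟨(hF b hb.1).2.1, hb.2⟩) (Φ z (u + T)) (Φ_nonneg hz (u + T)) (2 * E) (fun w' => by
      obtain ⟨C, hC⟩ : ∃ C, C = ((F.filter (fun b => UpCut s b)).image (dr s)).filter
        (fun c => c.head? = some w') := ⟨_, rfl⟩
      rw [← hC]
      have hmem : ∀ c ∈ C, ∃ b ∈ F, UpCut s b ∧ c = dr s b ∧ c.head? = some w' := by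
        intro c hc
        rw [hC, Finset.mem_filter, Finset.mem_image] at hc
        obtain ⟨⟨b, hb, rfl⟩, h5⟩ := hc
        rw [Finset.mem_filter] at hb
        exact ⟨b, hb.1, hb.2, rfl, h5⟩
      rcases C.eq_empty_or_nonempty with h0 | ⟨c0, hc0⟩
      · rw [h0, Finset.sum_empty]
        positivity
      · have hlw : lv w' = s + 1 := by
          obtain ⟨b, hb, hcut, hcb, hhd⟩ := hmem c0 hc0
          obtain ⟨x1, y1, hx1, hy1, -, -, hly⟩ := cross hcut (hF b hb).2.1
          rw [hcb, hy1, Option.some.injEq] at hhd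
          rw [← hhd, hly]
        refine rec_bound hx hz hE0 hβ0 hE hB hzT L0 le_rfl w' (u + T) C (by omega) (fun c hc => ?_)
        obtain ⟨b, hb, hcut, hcb, hhd⟩ := hmem c hc
        rw [hcb] at hhd ⊢
        obtain ⟨a1, a2, a3, a4⟩ := hF b hb
        refine ⟨?_, fun v hv => ?_⟩
        · obtain ⟨c1, c2, c3, c4⟩ := wk_dr (L := L0) ⟨a1, a2, a3, by omega⟩ hcut hhd
          exact ⟨c1, c2, c3, c4⟩
        · have := hcut.spec.2.2.2 v hv
          omega)
    refine h4.trans ?_
    have h5 : ∑ a ∈ (F.filter (fun b => UpCut s b)).image (tk s), x ^ a.length ≤ E := by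
      apply hE v
      intro a ha
      obtain ⟨b, hb, rfl⟩ := Finset.mem_image.1 ha
      rw [Finset.mem_filter] at hb
      exact wk_tk (hF b hb.1) hb.2
    have h6 := mul_le_mul_of_nonneg_right h5 (by positivity : 0 ≤ 4 * (2 * E))
    linarith
  calc ∑ b ∈ F, x ^ b.length * (1 + z) ^ (CW u (u + T) b).card
      ≤ ∑ b ∈ F, (x ^ b.length + z * ∑ s ∈ CW u (u + T) b, x ^ b.length * Φ z (u + T) (dr s b)) :=
        Finset.sum_le_sum h1
    _ = ∑ b ∈ F, x ^ b.length + z * ∑ s ∈ Finset.Ico u (u + T),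
        ∑ b ∈ F.filter (fun b => UpCut s b), x ^ b.length * Φ z (u + T) (dr s b) := by
        rw [Finset.sum_add_distrib, ← Finset.mul_sum, swap_sum]
    _ ≤ E + z * ∑ s ∈ Finset.Ico u (u + T), E * (8 * E) :=
        add_le_add h2 (mul_le_mul_of_nonneg_left (Finset.sum_le_sum h3) hz)
    _ = E + z * (T * (E * (8 * E))) := by
        rw [Finset.sum_const, Int.card_Ico, nsmul_eq_mul]
        simp

end

end Run7.h618.CL
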